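import Pool.Agent.MWNP.Stmts

/-!
# Row PCX: the closure test for `β`, arbitrary period (after `Helper33_MWN/NCX.lean`)
-/

namespace Pool.Agent.MWNP.H34

open Pool.Agent.Helper14_MV Pool.Agent.Helper2_MV Pool.Agent.MVO Pool.Agent.MWL Pool.Agent.MWS
  Pool.Agent.MWF Pool.Agent.MWN Pool.Agent.MWNP

theorem pcx (ncl : Pool.Agent.MWN.NclStmt) (phb : PhbStmt) : PcxStmt := by
  intro n β hB hI X k A hX hc
  obtain ⟨-, -, hLR, hND, hJ2⟩ := phb n β hB hI
  have key : ∀ b : Bit, bcode b ∈ X → ¬ Has n (FC.ofFIC β) b := by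
    intro b hb
    have h := hX _ hb
    cases b with
    | E =>
      simp only [bcode] at h
      rcases h with h | ⟨_, h⟩ | ⟨h, _⟩ | ⟨h, _⟩ | ⟨h, _⟩ | ⟨h, _⟩ | ⟨h, _⟩
      · omega
      · exact h
      all_goals omega
    | F =>
      simp only [bcode] at h
      rcases h with h | ⟨h, _⟩ | ⟨_, h⟩ | ⟨h, _⟩ | ⟨h, _⟩ | ⟨h, _⟩ | ⟨h, _⟩
      · omega
      · omega
      · exact h
      all_goals omega
    | G =>
      simp only [bcode] at h
      rcases h with h | ⟨h, _⟩ | ⟨h, _⟩ | ⟨_, h⟩ | ⟨h, _⟩ | ⟨h, _⟩ | ⟨h, _⟩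
      · omega
      · omega
      · omega
      · exact h
      all_goals omega
    | D l =>
      simp only [bcode] at h
      rcases h with h | ⟨h, _⟩ | ⟨h, _⟩ | ⟨h, _⟩ | ⟨e, h⟩ | ⟨e, h⟩ | ⟨h, _⟩
      · omega
      · omega
      · omega
      · omega
      · have : l = 0 := by omega
        subst this
        exact h
      · have : l = 1 := by omega
        subst this
        exact h
      · omega
    | J q =>
      simp only [bcode] at h
      rcases h with h | ⟨h, _⟩ | ⟨h, _⟩ | ⟨h, _⟩ | ⟨h, _⟩ | ⟨h, _⟩ | ⟨e, h⟩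
      · have : q = 2 := by omega
        subst this
        exact hJ2
      · omega
      · omega
      · omega
      · omega
      · omega
      · have : q = 3 := by omega
        subst this
        exact h
  intro a c ha hac
  exact ncl n (FC.ofFIC β) hLR hND X k A key hc a c ha hac

end Pool.Agent.MWNP.H34
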